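import Pool.Agent.E8helper78.FL.Stm

/-!
# Cluster parking functions (MP_b68fb8_co): basic facts on the cones and the form
-/

set_option autoImplicit false

open scoped RealInnerProductSpace NNReal

namespace Pool.Agent.E8helper56.FL

open Pool.Agent.E8helper78.FL

section

variable {V : Type} [NormedAddCommGroup V] [InnerProductSpace ℝ V]

theorem rf_app {a : V} (ha : ‖a‖ = 1) (x : V) : rf a x = x - (2 * ⟪a, x⟫) • a := by
  unfold rf
  rw [Submodule.reflection_orthogonal_apply, Submodule.reflection_singleton_apply]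
  simp only [ha]
  norm_num
  rw [mul_smul, two_smul, two_smul]

theorem rf_self (a : V) : rf a a = -a := by
  unfold rf
  exact Submodule.reflection_orthogonalComplement_singleton_eq_neg a

theorem cone_smul {S : Set V} {v : V} {a : ℝ} (ha : 0 ≤ a) (hv : v ∈ cone S) :
    a • v ∈ cone S := (cone S).smul_mem (⟨a, ha⟩ : ℝ≥0) hv

theorem cone_sub {S : Set V} {v : V} (hv : v ∈ S) : v ∈ cone S := Submodule.subset_span hv

theorem cone_mono {S T : Set V} (h : S ⊆ T) : cone S ≤ cone T := Submodule.span_mono h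

theorem cone_le {S T : Set V} (h : ∀ a ∈ S, a ∈ cone T) : cone S ≤ cone T :=
  Submodule.span_le.2 h

theorem cone_rep {D : Finset V} {x : V} (hx : x ∈ cone (D : Set V)) :
    ∃ f : V → ℝ, (∀ d, 0 ≤ f d) ∧ x = ∑ d ∈ D, f d • d := by
  obtain ⟨f, -, hf⟩ := Submodule.mem_span_finset.1 hx
  exact ⟨fun d => f d, fun d => (f d).2, hf.symm⟩

theorem e_bij [FiniteDimensional ℝ V] {c : V ≃ₗᵢ[ℝ] V} {E : V →ₗ[ℝ] V →ₗ[ℝ] ℝ} (h : IsE c E)
    (x : V) : ∃ u, x = u - c u := by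
  have hinj : Function.Injective
      ((LinearMap.id : V →ₗ[ℝ] V) - (c.toLinearEquiv : V →ₗ[ℝ] V)) := by
    rw [← LinearMap.ker_eq_bot, LinearMap.ker_eq_bot']
    intro u hu
    have h1 : u - c u = 0 := hu
    have h2 := h u u
    rw [h1, map_zero, LinearMap.zero_apply] at h2
    exact inner_self_eq_zero.1 h2.symm
  obtain ⟨u, hu⟩ := LinearMap.injective_iff_surjective.1 hinj x
  exact ⟨u, hu.symm⟩

theorem e_symm [FiniteDimensional ℝ V] {c : V ≃ₗᵢ[ℝ] V} {E : V →ₗ[ℝ] V →ₗ[ℝ] ℝ}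
    (h : IsE c E) (x y : V) : E x y + E y x = ⟪x, y⟫ := by
  obtain ⟨u, rfl⟩ := e_bij h x
  obtain ⟨v, rfl⟩ := e_bij h y
  rw [h, h]
  have h1 : ⟪c u, c v⟫ = ⟪u, v⟫ := c.inner_map_map u v
  simp only [inner_sub_left, inner_sub_right]
  rw [h1, real_inner_comm u v, real_inner_comm (c u) v]
  ring

theorem e_self [FiniteDimensional ℝ V] {c : V ≃ₗᵢ[ℝ] V} {E : V →ₗ[ℝ] V →ₗ[ℝ] ℝ}
    (h : IsE c E) {x : V} (hx : ‖x‖ = 1) : E x x = 1 / 2 := by
  have h1 := e_symm h x x
  rw [real_inner_self_eq_norm_sq, hx] at h1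
  linarith

end

end Pool.Agent.E8helper56.FL
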