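import Pool.Agent.E8helper56.FL.Cone

/-!
# Cluster parking functions (MP_b68fb8_co), piece SC (helper56): the first root of an expansion
-/

set_option autoImplicit false

open scoped RealInnerProductSpace NNReal

namespace Pool.Agent.E8helper56.FL

open Pool.Agent.E8helper78.FL

theorem t_SC (h1 : S_SIMP) (h2 : S_MOV) (h3 : S_NCL) : S_SC := by
  classical
  intro V _ _ _ Φ c E l r hΦ hE hc hrot M hM i hrM x hx
  obtain ⟨ρ, hρ⟩ : ∃ ρ, ρ = r i := ⟨_, rfl⟩
  obtain ⟨P, hP⟩ : ∃ P, P = pos Φ (l i) := ⟨_, rfl⟩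
  have hρP : ρ ∈ P := by rw [hρ, hP]; exact hrot.mem i
  have hρΦ : ρ ∈ Φ := by rw [hP] at hρP; exact hρP.1
  have hρu : ‖ρ‖ = 1 := hΦ.unit ρ hρΦ
  have hρM : ρ ∈ M := by rw [hρ]; exact hrM
  have hnn : ∀ y ∈ P, 0 ≤ E ρ y := by rw [hρ, hP]; exact hrot.nonneg i
  have hnp : ∀ y ∈ P, y ≠ ρ → E y ρ ≤ 0 := by rw [hρ, hP]; exact hrot.nonpos i
  have hrf : ∀ y ∈ P, y ≠ ρ → rf ρ y ∈ P := by rw [hρ, hP]; exact hrot.refl i
  have hself : E ρ ρ = 1 / 2 := e_self hE hρu
  -- the roots in `M`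
  obtain ⟨Ψ, hΨ⟩ : ∃ Ψ : Set V, Ψ = {a | a ∈ Φ ∧ a ∈ M} := ⟨_, rfl⟩
  have hΨr : IsRoots Ψ := by
    refine ⟨?_, ?_, ?_⟩
    · rw [hΨ]
      exact hΦ.fin.subset fun a ha => ha.1
    · intro a ha
      rw [hΨ] at ha
      exact hΦ.unit a ha.1
    · intro a ha b hb
      rw [hΨ] at ha hb ⊢
      refine ⟨hΦ.refl a ha.1 b hb.1, ?_⟩
      rw [rf_app (hΦ.unit a ha.1)]
      exact M.sub_mem hb.2 (M.smul_mem _ ha.2)
  have hpos : pos Ψ (l i) = {a | a ∈ P ∧ a ∈ M} := by
    rw [hP, hΨ]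
    ext a
    constructor
    · rintro ⟨⟨h4, h5⟩, h6⟩
      exact ⟨⟨h4, h6⟩, h5⟩
    · rintro ⟨⟨h4, h6⟩, h5⟩
      exact ⟨⟨h4, h5⟩, h6⟩
  obtain ⟨D, hD1, hD2, hD3, -⟩ := h1 V Ψ (l i) hΨr (fun a ha => by
    rw [hΨ] at ha
    exact hrot.reg i a ha.1)
  rw [hpos] at hD1 hD3
  have hDfin : D.Finite := hΦ.fin.subset fun a ha => by
    have h4 := (hD1 ha).1
    rw [hP] at h4
    exact h4.1
  obtain ⟨Df, hDf⟩ : ∃ Df : Finset V, (Df : Set V) = D := ⟨hDfin.toFinset, hDfin.coe_toFinset⟩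
  have hDmem : ∀ d ∈ Df, d ∈ P ∧ d ∈ M := fun d hd => hD1 (by
    rw [← hDf]
    exact hd)
  -- (0)
  have hρD : ρ ∈ Df := by
    by_contra hn
    have h4 : ρ ∈ cone (Df : Set V) := by
      rw [hDf]
      exact hD3 ⟨hρP, hρM⟩
    obtain ⟨f, hf0, hf⟩ := cone_rep h4
    have h5 : E ρ ρ = ∑ d ∈ Df, f d * E d ρ := by
      have h6 : E (∑ d ∈ Df, f d • d) ρ = ∑ d ∈ Df, f d * E d ρ := by
        rw [map_sum, LinearMap.sum_apply]
        refine Finset.sum_congr rfl fun d _ => ?_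
        rw [map_smul, LinearMap.smul_apply, smul_eq_mul]
      rwa [← hf] at h6
    have h6 : ∑ d ∈ Df, f d * E d ρ ≤ 0 := Finset.sum_nonpos fun d hd => by
      have h7 := hnp d (hDmem d hd).1 (fun h => hn (h ▸ hd))
      exact mul_nonpos_of_nonneg_of_nonpos (hf0 d) h7
    rw [← h5, hself] at h6
    norm_num at h6
  -- (1)
  have hone : ∀ d ∈ Df, d ≠ ρ → E ρ d = 0 := by
    by_contra hcon
    push Not at hcon
    obtain ⟨d0, hd0, hd0ρ, hd0E⟩ := hcon
    obtain ⟨hN1, -, hN2, -⟩ := (h3 V Φ c E hΦ hE hc).2 M hM ρ hρΦ hρM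
    obtain ⟨M', hM'⟩ : ∃ M' : Submodule ℝ V, M' = M ⊓ LinearMap.ker (E ρ) := ⟨_, rfl⟩
    rw [← hM'] at hN1 hN2
    obtain ⟨w, hw, hwM, -⟩ := hN1
    have hsp := h2 V Φ hΦ w hw
    rw [hwM] at hsp
    obtain ⟨D0, hD0⟩ : ∃ D0 : Finset V, D0 = (Df.erase ρ).erase d0 := ⟨_, rfl⟩
    have hle : M' ≤ Submodule.span ℝ (D0 : Set V) := by
      rw [← hsp]
      refine Submodule.span_le.2 ?_
      rintro g ⟨hgΦ, hgM'⟩
      have key : ∀ g : V, g ∈ P → g ∈ M → E ρ g = 0 → g ∈ Submodule.span ℝ (D0 : Set V) := by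
        intro g hgP hgM hg0
        have h4 : g ∈ cone (Df : Set V) := by
          rw [hDf]
          exact hD3 ⟨hgP, hgM⟩
        obtain ⟨f, hf0, hf⟩ := cone_rep h4
        have h5 : ∑ d ∈ Df, f d * E ρ d = 0 := by
          rw [← hg0]
          conv_rhs => rw [hf]
          rw [map_sum]
          refine Finset.sum_congr rfl fun d _ => ?_
          rw [map_smul, smul_eq_mul]
        have h6 := (Finset.sum_eq_zero_iff_of_nonneg fun d hd =>
          mul_nonneg (hf0 d) (hnn d (hDmem d hd).1)).1 h5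
        rw [hf]
        refine Submodule.sum_mem _ fun d hd => ?_
        by_cases hdd : d ∈ D0
        · exact Submodule.smul_mem _ _ (Submodule.subset_span hdd)
        · have h7 : E ρ d ≠ 0 := by
            rw [hD0, Finset.mem_erase, Finset.mem_erase] at hdd
            by_cases e1 : d = d0
            · rw [e1]
              exact hd0E
            · by_cases e2 : d = ρ
              · rw [e2, hself]
                norm_num
              · exact absurd ⟨e1, e2, hd⟩ hdd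
          have h8 : f d = 0 := (mul_eq_zero.1 (h6 d hd)).resolve_right h7
          rw [h8, zero_smul]
          exact Submodule.zero_mem _
      rw [hM', Submodule.mem_inf, LinearMap.mem_ker] at hgM'
      rcases lt_or_gt_of_ne (hrot.reg i g hgΦ) with h4 | h4
      · have h5 : -g ∈ Submodule.span ℝ (D0 : Set V) := by
          refine key (-g) ?_ (M.neg_mem hgM'.1) (by rw [map_neg, hgM'.2, neg_zero])
          rw [hP]
          refine ⟨?_, ?_⟩
          · have h6 := hΦ.refl g hgΦ g hgΦ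
            rwa [rf_self] at h6
          · rw [inner_neg_right]
            linarith
        have h6 := Submodule.neg_mem _ h5
        rwa [neg_neg] at h6
      · refine key g ?_ hgM'.1 hgM'.2
        rw [hP]
        exact ⟨hgΦ, h4⟩
    have hc1 : Module.finrank ℝ M' ≤ D0.card := by
      refine (Submodule.finrank_mono hle).trans ?_
      exact finrank_span_finset_le_card D0
    have hc2 : Df.card ≤ Module.finrank ℝ M := by
      have h4 : LinearIndependent ℝ (fun a : D => (⟨(a : V), (hD1 a.2).2⟩ : M)) := by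
        refine LinearIndependent.of_comp M.subtype ?_
        exact hD2
      have : Fintype D := hDfin.fintype
      have h5 := h4.fintype_card_le_finrank
      have h6 : Fintype.card D = Df.card := by
        have : D.toFinset = Df := by
          ext a
          rw [Set.mem_toFinset, ← hDf, Finset.mem_coe]
        rw [← Set.toFinset_card, this]
      rwa [h6] at h5
    have hc3 : D0.card + 2 = Df.card := by
      have h4 : d0 ∈ Df.erase ρ := Finset.mem_erase.2 ⟨hd0ρ, hd0⟩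
      rw [hD0, Finset.card_erase_of_mem h4, Finset.card_erase_of_mem hρD]
      have h5 : 1 ≤ (Df.erase ρ).card := Finset.card_pos.2 ⟨d0, h4⟩
      rw [Finset.card_erase_of_mem hρD] at h5
      omega
    omega
  -- (2)
  have htwo : ∀ d ∈ Df, d ≠ ρ → ⟪ρ, d⟫ = E d ρ ∧ E (rf ρ d) ρ = 0 := by
    intro d hd hne
    have h4 := e_symm hE d ρ
    rw [hone d hd hne, add_zero] at h4
    have h5 : ⟪ρ, d⟫ = E d ρ := by rw [h4, real_inner_comm]
    refine ⟨h5, ?_⟩
    rw [rf_app hρu, map_sub, map_smul, LinearMap.sub_apply, LinearMap.smul_apply, smul_eq_mul,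
      hself, h5]
    ring
  have hrfm : ∀ d ∈ Df, d ≠ ρ → rf ρ d ∈ P ∧ rf ρ d ∈ M ∧ rf ρ d ≠ ρ := by
    intro d hd hne
    refine ⟨hrf d (hDmem d hd).1 hne, ?_, ?_⟩
    · rw [rf_app hρu]
      exact M.sub_mem (hDmem d hd).2 (M.smul_mem _ hρM)
    · intro h4
      have h5 := (htwo d hd hne).2
      rw [h4, hself] at h5
      norm_num at h5
  -- (3)
  have hxc : x ∈ cone (Df : Set V) := by
    have h4 : cone {a | a ∈ P ∧ a ∈ M} ≤ cone D := cone_le fun a ha => hD3 ha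
    rw [hDf]
    refine h4 ?_
    rw [hP]
    exact hx
  obtain ⟨a, ha0, ha⟩ := cone_rep hxc
  obtain ⟨De, hDe⟩ : ∃ De : Finset V, De = Df.erase ρ := ⟨_, rfl⟩
  have hDem : ∀ d ∈ De, d ∈ Df ∧ d ≠ ρ := by
    intro d hd
    rw [hDe, Finset.mem_erase] at hd
    exact ⟨hd.2, hd.1⟩
  have hxs : x = a ρ • ρ + ∑ d ∈ De, a d • d := by
    rw [ha, hDe, Finset.add_sum_erase Df (fun d => a d • d) hρD]
  have hEx : E x ρ = a ρ / 2 + ∑ d ∈ De, a d * ⟪ρ, d⟫ := by
    conv_lhs => rw [hxs]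
    rw [map_add, LinearMap.add_apply, map_smul, LinearMap.smul_apply, smul_eq_mul, hself, map_sum,
      LinearMap.sum_apply]
    congr 1
    · ring
    · refine Finset.sum_congr rfl fun d hd => ?_
      rw [map_smul, LinearMap.smul_apply, smul_eq_mul, (htwo d (hDem d hd).1 (hDem d hd).2).1]
  have hneg : ∀ d ∈ De, ⟪ρ, d⟫ ≤ 0 := by
    intro d hd
    rw [(htwo d (hDem d hd).1 (hDem d hd).2).1]
    exact hnp d (hDmem d (hDem d hd).1).1 (hDem d hd).2
  rw [← hρ, ← hP]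
  constructor
  · intro hle
    obtain ⟨s, hs⟩ : ∃ s : ℝ, s = ∑ d ∈ De, a d * (-(2 * ⟪ρ, d⟫)) := ⟨_, rfl⟩
    have hs1 : s = -(2 * ∑ d ∈ De, a d * ⟪ρ, d⟫) := by
      rw [hs, Finset.mul_sum, ← Finset.sum_neg_distrib]
      exact Finset.sum_congr rfl fun d _ => by ring
    have hs0 : a ρ ≤ s := by
      rw [hs1]
      linarith [hEx ▸ hle]
    have hq : ∃ q : ℝ, 0 ≤ q ∧ q ≤ 1 ∧ q * s = a ρ := by
      have h4 := ha0 ρ
      rcases eq_or_lt_of_le (h4.trans hs0) with h5 | h5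
      · refine ⟨0, le_rfl, zero_le_one, ?_⟩
        rw [zero_mul]
        linarith
      · refine ⟨a ρ / s, div_nonneg h4 h5.le, (div_le_one h5).2 hs0, ?_⟩
        exact div_mul_cancel₀ _ h5.ne'
    obtain ⟨q, hq0, hq1, hqs⟩ := hq
    have hxs2 : x = ∑ d ∈ De, a d • ((1 - q) • d + q • rf ρ d) := by
      have h4 : ∀ d ∈ De, a d • ((1 - q) • d + q • rf ρ d) =
          a d • d + (q * (a d * (-(2 * ⟪ρ, d⟫)))) • ρ := by
        intro d _
        rw [rf_app hρu]
        module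
      rw [Finset.sum_congr rfl h4, Finset.sum_add_distrib, ← Finset.sum_smul, ← Finset.mul_sum,
        ← hs, hqs, hxs, add_comm]
    rw [hxs2]
    refine Submodule.sum_mem _ fun d hd => cone_smul (ha0 d) ?_
    obtain ⟨hd1, hd2⟩ := hDem d hd
    refine Submodule.add_mem _ (cone_smul (by linarith) (cone_sub ?_))
      (cone_smul hq0 (cone_sub ?_))
    · exact ⟨⟨(hDmem d hd1).1, hd2⟩, (hDmem d hd1).2⟩
    · obtain ⟨h4, h5, h6⟩ := hrfm d hd1 hd2
      exact ⟨⟨h4, h6⟩, h5⟩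
  · intro hlt
    refine ⟨2 * E x ρ, by linarith, ∑ d ∈ De, a d • rf ρ d, ?_, ?_⟩
    · refine Submodule.sum_mem _ fun d hd => cone_smul (ha0 d) (cone_sub ?_)
      obtain ⟨hd1, hd2⟩ := hDem d hd
      obtain ⟨h4, h5, -⟩ := hrfm d hd1 hd2
      refine ⟨h4, h5, ?_⟩
      rw [SetLike.mem_coe, LinearMap.mem_ker, LinearMap.flip_apply]
      exact (htwo d hd1 hd2).2
    · have h4 : ∀ d ∈ De, a d • rf ρ d = a d • d + (-(2 * (a d * ⟪ρ, d⟫))) • ρ := by
        intro d _
        rw [rf_app hρu]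
        module
      rw [Finset.sum_congr rfl h4, Finset.sum_add_distrib, ← Finset.sum_smul,
        Finset.sum_neg_distrib, ← Finset.mul_sum, hEx]
      conv_lhs => rw [hxs]
      module

end Pool.Agent.E8helper56.FL
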